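import Pool.Agent.Helper66_KF.Stmts
import Pool.Agent.Helper50_PP.Blk3

/-!
# Squad KF, module IDM: the lift of a central idempotent has coefficients in the local ring
-/

open scoped BigOperators
open Polynomial

noncomputable section

namespace Pool.Agent.PP.KF.H25

open Pool.Agent.PP Pool.Agent.PP.KF Pool.Agent.PP.H50 Pool.Agent.Helper51_AWC
  Pool.Agent.Helper79_WRA

attribute [local instance] Ideal.Quotient.field

section pw

variable {G : Type} [Group G] [Fintype G]

open Classical in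
/-- powers in the group ring, on functions -/
def pw {K : Type*} [CommRing K] (a : G → K) : ℕ → G → K
  | 0 => fun g => if g = 1 then 1 else 0
  | n + 1 => fun y => ∑ h, pw a n h * a (h⁻¹ * y)

theorem pw_map {K L : Type*} [CommRing K] [CommRing L] (f : K →+* L) (a : G → K) (n : ℕ)
    (g : G) : f (pw a n g) = pw (fun t => f (a t)) n g := by
  induction n generalizing g with
  | zero =>
    simp only [pw]
    split_ifs <;> simp
  | succ n ih =>
    simp only [pw, map_sum, map_mul]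
    exact Finset.sum_congr rfl fun h _ => by rw [ih]

theorem pw_cl {K : Type*} [CommRing K] {a : G → K} (ha : ∀ x y, a (y * x * y⁻¹) = a x) (n : ℕ) :
    ∀ x y, pw a n (y * x * y⁻¹) = pw a n x := by
  induction n with
  | zero =>
    intro x y
    simp only [pw]
    have : y * x * y⁻¹ = 1 ↔ x = 1 := by
      constructor
      · intro h
        have h' : x = y⁻¹ * (y * x * y⁻¹) * y := by group
        rw [h', h]; group
      · rintro rfl; group
    by_cases hx : x = 1
    · rw [if_pos hx, if_pos (this.2 hx)]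
    · rw [if_neg hx, if_neg (fun h => hx (this.1 h))]
  | succ n ih =>
    intro x y
    simp only [pw]
    rw [← Equiv.sum_comp (MulAut.conj y).toEquiv
      (fun h => pw a n h * a (h⁻¹ * (y * x * y⁻¹)))]
    refine Finset.sum_congr rfl fun h _ => ?_
    change pw a n (y * h * y⁻¹) * a ((y * h * y⁻¹)⁻¹ * (y * x * y⁻¹)) = _
    have h2 : (y * h * y⁻¹)⁻¹ * (y * x * y⁻¹) = y * (h⁻¹ * x) * y⁻¹ := by group
    rw [h2, ha, ih]

theorem pw_om {a : G → ℂ} (ha : ∀ x y, a (y * x * y⁻¹) = a x) {χ : G → ℂ} (hχ : χ ∈ Irr G)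
    (n : ℕ) : om (pw a n) χ = om a χ ^ n := by
  induction n with
  | zero =>
    have h1 : χ 1 ≠ 0 := irr_one_ne hχ
    rw [om, Finset.sum_eq_single_of_mem (1 : G) (Finset.mem_univ _), pow_zero]
    · simp only [pw, if_true, one_mul]
      exact div_self h1
    · intro b _ hb
      simp only [pw, if_neg hb, zero_mul]
  | succ n ih =>
    have h1 : pw a (n + 1) = fun y => ∑ h, pw a n h * a (h⁻¹ * y) := rfl
    rw [h1, om_mul ha hχ, ih, pow_succ]

theorem pw_idem {K : Type*} [CommRing K] {e : G → K} (he : ∀ y, ∑ h, e h * e (h⁻¹ * y) = e y)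
    (n : ℕ) : pw e (n + 1) = e := by
  classical
  induction n with
  | zero =>
    funext y
    simp only [pw]
    rw [Finset.sum_eq_single_of_mem (1 : G) (Finset.mem_univ _)]
    · simp
    · intro b _ hb
      simp [hb]
  | succ n ih =>
    funext y
    have h1 : pw e (n + 1 + 1) y = ∑ h, pw e (n + 1) h * e (h⁻¹ * y) := rfl
    rw [h1, ih, he]

/-- a class function is determined by its central characters -/
theorem ext_om {f g : G → ℂ} (hf : ∀ x y, f (y * x * y⁻¹) = f x)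
    (hg : ∀ x y, g (y * x * y⁻¹) = g x) (h : ∀ χ ∈ Irr G, om f χ = om g χ) : f = g := by
  have h1 : (fun x => f x⁻¹ - g x⁻¹) = 0 := by
    apply irr_complete'
    · intro x y
      have e1 : (y * x * y⁻¹)⁻¹ = y * x⁻¹ * y⁻¹ := by group
      rw [e1, hf, hg]
    · intro χ hχ
      have h2 := h χ hχ
      have h3 : χ 1 ≠ 0 := irr_one_ne hχ
      rw [om, om, div_left_inj' h3] at h2
      rw [← Equiv.sum_comp (Equiv.inv G)]
      simp only [Equiv.inv_apply, inv_inv, sub_mul, Finset.sum_sub_distrib]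
      rw [h2, sub_self]
  funext x
  have := congrFun h1 x⁻¹
  simp only [inv_inv, Pi.zero_apply] at this
  exact sub_eq_zero.1 this

end pw

section lift

variable {G : Type} [Group G] [Fintype G] {M : Ideal (integralClosure ℤ ℂ)}

theorem irrE_fin (e : G → FF M) : (IrrE M e).Finite :=
  (irr_finite' (G := G)).subset fun _ h => h.1

theorem eh_eq (e : G → FF M) (g : G) : eh M e g =
    (Fintype.card G : ℂ)⁻¹ * ∑ χ ∈ (irrE_fin e).toFinset, χ 1 * χ g⁻¹ := by
  rw [eh, Nat.card_eq_fintype_card, finsum_mem_eq_finite_toFinset_sum]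

theorem eh_cl (e : G → FF M) : ∀ x y, eh M e (y * x * y⁻¹) = eh M e x := by
  intro x y
  rw [eh_eq, eh_eq]
  congr 1
  refine Finset.sum_congr rfl fun χ hχ => ?_
  have h1 : χ ∈ Irr G := ((irrE_fin e).mem_toFinset.1 hχ).1
  have e1 : (y * x * y⁻¹)⁻¹ = y * x⁻¹ * y⁻¹ := by group
  rw [e1, irr_conj h1]

theorem eh_om (e : G → FF M) {ψ : G → ℂ} (hψ : ψ ∈ Irr G) :
    (ψ ∈ IrrE M e → om (eh M e) ψ = 1) ∧ (ψ ∉ IrrE M e → om (eh M e) ψ = 0) := by
  classical
  have hc : (Fintype.card G : ℂ) ≠ 0 := by exact_mod_cast Fintype.card_ne_zero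
  have hn : ψ 1 ≠ 0 := irr_one_ne hψ
  have h1 : ∑ t, eh M e t * ψ t = (Fintype.card G : ℂ)⁻¹ *
      ∑ χ ∈ (irrE_fin e).toFinset, χ 1 * ∑ t, ψ t * χ t⁻¹ := by
    simp_rw [eh_eq, mul_assoc, ← Finset.mul_sum, Finset.sum_mul]
    rw [Finset.sum_comm]
    congr 1
    refine Finset.sum_congr rfl fun χ _ => ?_
    rw [Finset.mul_sum]
    refine Finset.sum_congr rfl fun t _ => ?_
    ring
  constructor
  · intro h
    rw [om, h1, Finset.sum_eq_single_of_mem ψ ((irrE_fin e).mem_toFinset.2 h),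
      irr_orth_self hψ]
    · field_simp
    · intro χ hχ hne
      have h2 : χ ∈ Irr G := ((irrE_fin e).mem_toFinset.1 hχ).1
      rw [irr_orth_ne hψ h2 (Ne.symm hne), mul_zero]
  · intro h
    rw [om, h1, Finset.sum_eq_zero, mul_zero, zero_div]
    intro χ hχ
    have h2 := (irrE_fin e).mem_toFinset.1 hχ
    have hne : χ ≠ ψ := fun h3 => h (h3 ▸ h2)
    rw [irr_orth_ne hψ h2.1 (Ne.symm hne), mul_zero]

theorem mulF_eq (a b : G → ℂ) : mulF a b = fun y => ∑ h, a h * b (h⁻¹ * y) := by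
  funext y
  rw [mulF, finsum_eq_sum_of_fintype]

theorem eh_idem (e : G → FF M) : IsIdem (eh M e) := by
  refine ⟨eh_cl e, ?_⟩
  apply ext_om _ (eh_cl e)
  · intro χ hχ
    rw [mulF_eq, om_mul (eh_cl e) hχ]
    by_cases h : χ ∈ IrrE M e
    · rw [(eh_om e hχ).1 h, one_mul]
    · rw [(eh_om e hχ).2 h, zero_mul]
  · intro x y
    rw [mulF_eq]
    change ∑ h, eh M e h * eh M e (h⁻¹ * (y * x * y⁻¹)) = ∑ h, eh M e h * eh M e (h⁻¹ * x)
    rw [← Equiv.sum_comp (MulAut.conj y).toEquiv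
      (fun h => eh M e h * eh M e (h⁻¹ * (y * x * y⁻¹)))]
    refine Finset.sum_congr rfl fun h _ => ?_
    change eh M e (y * h * y⁻¹) * eh M e ((y * h * y⁻¹)⁻¹ * (y * x * y⁻¹)) = _
    have h2 : (y * h * y⁻¹)⁻¹ * (y * x * y⁻¹) = y * (h⁻¹ * x) * y⁻¹ := by group
    rw [h2, eh_cl, eh_cl]

theorem chv_eh (e : G → FF M) {χ : G → ℂ} (hχ : χ ∈ Irr G) (a : G → ℂ) :
    chv (mulF (eh M e) a) χ = om (eh M e) χ * chv a χ := by
  rw [chv, chv, finsum_eq_sum_of_fintype, finsum_eq_sum_of_fintype, mulF_eq]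
  have h2 : ∑ t, (∑ h, eh M e h * a (h⁻¹ * t)) * χ t =
      ∑ s, a s * ∑ h, eh M e h * χ (h * s) := by
    simp_rw [Finset.sum_mul, Finset.mul_sum]
    rw [Finset.sum_comm]
    have h3 : ∀ h, ∑ t, eh M e h * a (h⁻¹ * t) * χ t = ∑ s, a s * (eh M e h * χ (h * s)) := by
      intro h
      rw [← Equiv.sum_comp (Equiv.mulLeft h) (fun t => eh M e h * a (h⁻¹ * t) * χ t)]
      refine Finset.sum_congr rfl fun t _ => ?_
      rw [Equiv.coe_mulLeft, inv_mul_cancel_left]
      ring
    simp_rw [h3]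
    rw [Finset.sum_comm]
  rw [h2, Finset.mul_sum]
  refine Finset.sum_congr rfl fun s _ => ?_
  rw [eigen (eh_cl e) hχ]
  ring

end lift

section main

variable {G : Type} [Group G] [Fintype G] {M : Ideal (integralClosure ℤ ℂ)} [hM : M.IsMaximal]

theorem main (e : G → FF M) (he : IsIdem e) (g : G) :
    eh M e g ∈ RM M ∧ rr M (eh M e g) = e g := by
  classical
  by_cases hY : IrrE M e = ∅
  · have h0 : e = 0 := by
      by_contra h
      obtain ⟨χ, hχ, h1⟩ := exists_irr_res he h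
      have : χ ∈ IrrE M e := ⟨hχ, h1⟩
      rw [hY] at this
      exact this
    have h1 : eh M e g = 0 := by
      rw [eh, hY]
      simp
    rw [h1, h0]
    exact ⟨(RM M).zero_mem, rr_zero⟩
  obtain ⟨χ₀, hχ₀⟩ := Set.nonempty_iff_ne_empty.2 hY
  obtain ⟨a, ha, ea⟩ := exists_lift (M := M) (b := e) he.1
  let aC : G → ℂ := fun t => (a t : ℂ)
  have haC : ∀ x y, aC (y * x * y⁻¹) = aC x := fun x y => by simp only [aC, ha x y]
  let aR : G → RM M := fun t => ⟨a t, RM_of_int (a t).2⟩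
  have hee : (fun t => Ideal.Quotient.mk M (a t)) = e := funext ea
  -- the central characters
  have hint : ∀ χ ∈ Irr G, IsIntegral ℤ (om aC χ) := fun χ hχ => (res_irr (M := M) a ha hχ).2
  have hred : ∀ χ ∈ Irr G, rr M (om aC χ) = res M e χ := by
    intro χ hχ
    rw [rr_of_int (hint χ hχ), ← (res_irr (M := M) a ha hχ).1, hee]
  let t : (G → ℂ) → RM M := fun χ => if h : χ ∈ Irr G then ⟨om aC χ, RM_of_int (hint χ h)⟩ else 0
  have ht : ∀ χ ∈ Irr G, ((t χ : RM M) : ℂ) = om aC χ := by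
    intro χ hχ
    simp only [t, dif_pos hχ]
  have htr : ∀ χ ∈ Irr G, rrHom M (t χ) = res M e χ := by
    intro χ hχ
    rw [rrHom_apply, ht χ hχ, hred χ hχ]
  let Y : Finset (G → ℂ) := (irrE_fin e).toFinset
  let Nn : Finset (G → ℂ) := (irr_finite' (G := G)).toFinset \ Y
  have hYm : ∀ χ, χ ∈ Y ↔ χ ∈ Irr G ∧ res M e χ = 1 := fun χ => (irrE_fin e).mem_toFinset
  have hNm : ∀ χ, χ ∈ Nn ↔ χ ∈ Irr G ∧ res M e χ = 0 := by
    intro χ
    simp only [Nn, Finset.mem_sdiff, Set.Finite.mem_toFinset, hYm]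
    constructor
    · rintro ⟨h1, h2⟩
      refine ⟨h1, ?_⟩
      rcases res_idem he h1 with h | h
      · exact h
      · exact absurd ⟨h1, h⟩ h2
    · rintro ⟨h1, h2⟩
      refine ⟨h1, fun h3 => ?_⟩
      rw [h2] at h3
      exact zero_ne_one h3.2
  let P : (RM M)[X] := X * ∏ χ ∈ Nn, (X - C (t χ))
  have hPe : ∀ z : RM M, P.eval z = z * ∏ χ ∈ Nn, (z - t χ) := by
    intro z
    simp only [P, eval_mul, eval_X, eval_prod, eval_sub, eval_C]
  have hPr : ∀ z : RM M, rrHom M (P.eval z) = rrHom M z * rrHom M z ^ Nn.card := by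
    intro z
    rw [hPe, map_mul, map_prod]
    congr 1
    rw [Finset.prod_congr rfl (g := fun _ => rrHom M z), Finset.prod_const]
    intro χ hχ
    have h1 := (hNm χ).1 hχ
    rw [map_sub, htr χ h1.1, h1.2, sub_zero]
  -- units
  have hu : ∀ χ ∈ Y, ∃ v : RM M, v * P.eval (t χ) = 1 ∧ rrHom M v = 1 := by
    intro χ hχ
    have h1 := (hYm χ).1 hχ
    have h2 : rrHom M (P.eval (t χ)) = 1 := by
      rw [hPr, htr χ h1.1, h1.2, one_pow, one_mul]
    have h3 : rr M ((P.eval (t χ) : RM M) : ℂ) ≠ 0 := by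
      rw [← rrHom_apply, h2]
      exact one_ne_zero
    obtain ⟨h4, h5⟩ := inv_RM (P.eval (t χ)).2 h3
    refine ⟨⟨_, h4⟩, ?_, ?_⟩
    · apply Subtype.ext
      push_cast
      exact inv_mul_cancel₀ h5
    · rw [rrHom_apply]
      change rr M (((P.eval (t χ) : RM M) : ℂ)⁻¹) = 1
      rw [rr_inv (P.eval (t χ)).2 h3, ← rrHom_apply, h2, inv_one]
  choose! v hv1 hv2 using hu
  let Q : (RM M)[X] := 1 - ∏ χ ∈ Y, (1 - C (v χ) * P)
  have hQe : ∀ z : RM M, Q.eval z = 1 - ∏ χ ∈ Y, (1 - v χ * P.eval z) := by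
    intro z
    simp only [Q, eval_sub, eval_one, eval_prod, eval_mul, eval_C]
  have hQ1 : ∀ χ ∈ Y, Q.eval (t χ) = 1 := by
    intro χ hχ
    rw [hQe, Finset.prod_eq_zero hχ, sub_zero]
    rw [hv1 χ hχ, sub_self]
  have hQ0 : ∀ χ ∈ Nn, Q.eval (t χ) = 0 := by
    intro χ hχ
    have h0 : ∏ ψ ∈ Nn, (t χ - t ψ) = 0 := Finset.prod_eq_zero hχ (sub_self _)
    have h1 : P.eval (t χ) = 0 := by
      rw [hPe, h0, mul_zero]
    rw [hQe, h1]
    simp
  have hQr0 : rrHom M (Q.eval 0) = 0 := by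
    rw [hQe]
    have h1 : P.eval 0 = 0 := by rw [hPe, zero_mul]
    rw [h1]
    simp
  have hχY : χ₀ ∈ Y := (hYm _).2 hχ₀
  have hQr1 : rrHom M (Q.eval 1) = 1 := by
    rw [hQe, map_sub, map_one, map_prod, Finset.prod_eq_zero hχY, sub_zero]
    rw [map_sub, map_one, map_mul, hv2 χ₀ hχY, hPr, map_one, one_pow, one_mul, one_mul, sub_self]
  -- the element
  let p : G → RM M := fun g => ∑ n ∈ Finset.range (Q.natDegree + 1), Q.coeff n * pw aR n g
  have hpC : ∀ g, ((p g : RM M) : ℂ) =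
      ∑ n ∈ Finset.range (Q.natDegree + 1), (Q.coeff n : ℂ) * pw aC n g := by
    intro g
    have h1 := map_sum (RM M).subtype (fun n => Q.coeff n * pw aR n g)
      (Finset.range (Q.natDegree + 1))
    refine Eq.trans h1 (Finset.sum_congr rfl fun n _ => ?_)
    rw [map_mul, pw_map]
    rfl
  have hpF : ∀ g, rrHom M (p g) =
      ∑ n ∈ Finset.range (Q.natDegree + 1), rrHom M (Q.coeff n) * pw e n g := by
    intro g
    have h1 := map_sum (rrHom M) (fun n => Q.coeff n * pw aR n g)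
      (Finset.range (Q.natDegree + 1))
    refine Eq.trans h1 (Finset.sum_congr rfl fun n _ => ?_)
    rw [map_mul, pw_map]
    congr 2
    funext s
    rw [rrHom_apply]
    change rr M ((a s : integralClosure ℤ ℂ) : ℂ) = e s
    rw [rr_of_int (a s).2, red_of (a s).2, ← ea s]
  -- the element is the lift
  have hpe : (fun g => ((p g : RM M) : ℂ)) = eh M e := by
    apply ext_om _ (eh_cl e)
    · intro χ hχ
      have h1 : om (fun g => ((p g : RM M) : ℂ)) χ = ((Q.eval (t χ) : RM M) : ℂ) := by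
        have h2 : ∀ n, ∑ s, pw aC n s * χ s = om aC χ ^ n * χ 1 := by
          intro n
          rw [← pw_om haC hχ, om, div_mul_cancel₀ _ (irr_one_ne hχ)]
        have h3 : ∑ s, ((p s : RM M) : ℂ) * χ s =
            (∑ n ∈ Finset.range (Q.natDegree + 1), (Q.coeff n : ℂ) * om aC χ ^ n) * χ 1 := by
          simp_rw [hpC, Finset.sum_mul]
          rw [Finset.sum_comm]
          refine Finset.sum_congr rfl fun n _ => ?_
          simp_rw [mul_assoc]
          rw [← Finset.mul_sum, h2]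
        rw [om, h3, mul_div_cancel_right₀ _ (irr_one_ne hχ), eval_eq_sum_range]
        rw [← ht χ hχ]
        push_cast
        rfl
      rw [h1]
      by_cases h : χ ∈ Y
      · rw [hQ1 χ h, (eh_om e hχ).1 ((hYm χ).1 h)]
        rfl
      · have h4 : χ ∈ Nn := by
          rw [hNm]
          refine ⟨hχ, ?_⟩
          rcases res_idem he hχ with h5 | h5
          · exact h5
          · exact absurd ((hYm χ).2 ⟨hχ, h5⟩) h
        rw [hQ0 χ h4, (eh_om e hχ).2 (fun h5 => h ((hYm χ).2 h5))]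
        rfl
    · intro x y
      simp only [hpC]
      exact Finset.sum_congr rfl fun n _ => by rw [pw_cl haC]
  have hg : eh M e g = ((p g : RM M) : ℂ) := (congrFun hpe g).symm
  rw [hg]
  refine ⟨(p g).2, ?_⟩
  rw [← rrHom_apply, hpF]
  have hid : ∀ y, ∑ h, e h * e (h⁻¹ * y) = e y := by
    intro y
    have := congrFun he.2 y
    rw [mulF, finsum_eq_sum_of_fintype] at this
    exact this
  rw [Finset.sum_range_succ']
  have h1 : ∀ n ∈ Finset.range Q.natDegree, rrHom M (Q.coeff (n + 1)) * pw e (n + 1) g =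
      rrHom M (Q.coeff (n + 1)) * e g := fun n _ => by rw [pw_idem hid]
  rw [Finset.sum_congr rfl h1, ← Finset.sum_mul]
  have h2 : Q.coeff 0 = Q.eval 0 := coeff_zero_eq_eval_zero Q
  have h3 : ∑ n ∈ Finset.range Q.natDegree, rrHom M (Q.coeff (n + 1)) = 1 := by
    have h4 : Q.eval 1 = ∑ n ∈ Finset.range (Q.natDegree + 1), Q.coeff n := by
      rw [eval_eq_sum_range]
      simp
    have h5 := hQr1
    rw [h4, map_sum, Finset.sum_range_succ', h2, hQr0, add_zero] at h5
    exact h5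
  rw [h2, hQr0, h3, one_mul, zero_mul, add_zero]

end main

theorem idm : IdmStmt := by
  intro M _ G _ _ e he
  have := Fintype.ofFinite G
  refine ⟨fun g => main e he g, eh_idem e, ?_⟩
  intro χ hχ a
  constructor
  · intro h
    rw [chv_eh e hχ, (eh_om e hχ).1 ⟨hχ, h⟩, one_mul]
  · intro h
    rw [chv_eh e hχ, (eh_om e hχ).2 (fun h' => h h'.2), zero_mul]

end Pool.Agent.PP.KF.H25
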